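import Mathlib

open Finset
open scoped Pointwise

namespace Pool.Agent.Results.MP_267066_co.TwoSetSumset

/-- standard basis vector -/
abbrev e {n : ℕ} (i : Fin n) : Fin n → ℚ := Pi.single i 1

theorem e_self {n : ℕ} (i : Fin n) : (e i : Fin n → ℚ) i = 1 := by simp [e]

theorem e_ne {n : ℕ} {i j : Fin n} (h : j ≠ i) : (e i : Fin n → ℚ) j = 0 := by
  simp [e, h]

theorem e_nonneg {n : ℕ} (i j : Fin n) : 0 ≤ (e i : Fin n → ℚ) j := by
  by_cases h : j = i
  · subst h; simp [e]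
  · rw [e_ne h]

theorem e_inj {n : ℕ} {i j : Fin n} (h : (e i : Fin n → ℚ) = e j) : i = j := by
  by_contra hne
  have := congrFun h i
  rw [e_self, e_ne hne] at this
  norm_num at this

theorem ee_eq {n : ℕ} {i j k l : Fin n} (h : (e i + e j : Fin n → ℚ) = e k + e l) :
    (i = k ∧ j = l) ∨ (i = l ∧ j = k) := by
  by_cases hik : i = k
  · subst hik
    left
    exact ⟨rfl, e_inj (add_left_cancel h)⟩
  · right
    have hi := congrFun h i
    simp only [Pi.add_apply] at hi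
    rw [e_self, e_ne hik] at hi
    by_cases hil : i = l
    · subst hil
      refine ⟨rfl, ?_⟩
      rw [add_comm (e k) (e i)] at h
      exact e_inj (add_left_cancel h)
    · rw [e_ne hil] at hi
      have := e_nonneg j i
      linarith

/-- the vector of an unordered pair -/
def pv {n : ℕ} : Sym2 (Fin n) → (Fin n → ℚ) :=
  Sym2.lift ⟨fun i j => e i + e j, fun _ _ => add_comm _ _⟩

theorem pv_inj {n : ℕ} : Function.Injective (pv (n := n)) := by
  intro s t
  induction s with | _ i j =>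
  induction t with | _ k l =>
  intro h
  have h' : (e i + e j : Fin n → ℚ) = e k + e l := h
  rcases ee_eq h' with ⟨h1, h2⟩ | ⟨h1, h2⟩
  · rw [h1, h2]
  · rw [h1, h2, Sym2.eq_swap]

/-- the target set -/
def T (n : ℕ) : Finset (Fin n → ℚ) := univ.image pv

theorem mem_T {n : ℕ} {t : Fin n → ℚ} : t ∈ T n ↔ ∃ i j, t = e i + e j := by
  simp only [T, mem_image, mem_univ, true_and]
  constructor
  · rintro ⟨s, hs⟩
    induction s with | _ i j =>
    exact ⟨i, j, hs.symm⟩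
  · rintro ⟨i, j, h⟩
    exact ⟨s(i, j), h.symm⟩

theorem card_T (n : ℕ) : (T n).card = (n + 1).choose 2 := by
  rw [T, card_image_of_injective _ pv_inj, card_univ, Sym2.card, Fintype.card_fin]

theorem T_nonneg {n : ℕ} {t : Fin n → ℚ} (h : t ∈ T n) (k : Fin n) : 0 ≤ t k := by
  obtain ⟨i, j, rfl⟩ := mem_T.1 h
  exact add_nonneg (e_nonneg _ _) (e_nonneg _ _)

/-- a vector of `T` that does not vanish at `i` is `e i + e j` -/
theorem T_pos {n : ℕ} {t : Fin n → ℚ} (h : t ∈ T n) (i : Fin n) (hi : t i ≠ 0) :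
    ∃ j, t = e i + e j := by
  obtain ⟨a, b, rfl⟩ := mem_T.1 h
  by_cases ha : i = a
  · subst ha; exact ⟨b, rfl⟩
  · by_cases hb : i = b
    · subst hb; exact ⟨a, add_comm _ _⟩
    · exfalso; apply hi
      simp only [Pi.add_apply]
      rw [e_ne ha, e_ne hb, add_zero]

/-- codegree structure: pairs with two common neighbours differ by a root -/
theorem root_of_two {n : ℕ} {u v w w' : Fin n → ℚ} (huv : u ≠ v) (hww : w ≠ w')
    (h1 : u + w ∈ T n) (h2 : v + w ∈ T n) (h3 : u + w' ∈ T n) (h4 : v + w' ∈ T n) :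
    ∃ i l, i ≠ l ∧ u - v = e i - e l := by
  -- if some coordinate is nonzero in both, we get a root
  have key : ∀ z : Fin n → ℚ, u + z ∈ T n → v + z ∈ T n →
      (∃ k, (u + z) k ≠ 0 ∧ (v + z) k ≠ 0) → ∃ i l, i ≠ l ∧ u - v = e i - e l := by
    rintro z hu hv ⟨k, hk1, hk2⟩
    obtain ⟨i, hi⟩ := T_pos hu k hk1
    obtain ⟨l, hl⟩ := T_pos hv k hk2
    refine ⟨i, l, ?_, ?_⟩
    · rintro rfl
      apply huv
      have : u + z = v + z := by rw [hi, hl]
      exact add_right_cancel this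
    · have : u - v = (u + z) - (v + z) := by abel
      rw [this, hi, hl]; abel
  by_cases c1 : ∃ k, (u + w) k ≠ 0 ∧ (v + w) k ≠ 0
  · exact key w h1 h2 c1
  by_cases c2 : ∃ k, (u + w') k ≠ 0 ∧ (v + w') k ≠ 0
  · exact key w' h3 h4 c2
  exfalso
  push Not at c1 c2
  apply hww
  have : u + w = u + w' := by
    funext k
    have a1 := T_nonneg h1 k
    have a2 := T_nonneg h2 k
    have a3 := T_nonneg h3 k
    have a4 := T_nonneg h4 k
    have b1 := c1 k
    have b2 := c2 k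
    have hdiff : (u + w) k - (v + w) k = (u + w') k - (v + w') k := by
      simp only [Pi.add_apply]; ring
    by_cases hz : (u + w) k = 0
    · by_cases hz' : (u + w') k = 0
      · rw [hz, hz']
      · have := b2 hz'
        rw [hz, this] at hdiff
        have : 0 < (u + w') k := lt_of_le_of_ne a3 (Ne.symm hz')
        linarith
    · have e1 := b1 hz
      have : 0 < (u + w) k := lt_of_le_of_ne a1 (Ne.symm hz)
      by_cases hz' : (u + w') k = 0
      · rw [hz', e1] at hdiff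
        linarith
      · have e2 := b2 hz'
        rw [e1, e2] at hdiff
        linarith
  exact add_left_cancel this

/-- the block of `B` at `c` -/
def Fs {n : ℕ} (B : Finset (Fin n → ℚ)) (c : Fin n → ℚ) : Finset (Fin n) :=
  univ.filter (fun i => c + e i ∈ B)

theorem mem_Fs {n : ℕ} {B : Finset (Fin n → ℚ)} {c : Fin n → ℚ} {i : Fin n} :
    i ∈ Fs B c ↔ c + e i ∈ B := by simp [Fs]

/-- elements of `B` that can be moved by the root `e l - e i` inside `B` -/
def R {n : ℕ} (B : Finset (Fin n → ℚ)) (i l : Fin n) : Finset (Fin n → ℚ) :=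
  B.filter (fun u => u - e i + e l ∈ B)

theorem root_unique {n : ℕ} {i l i' l' : Fin n} (h : i ≠ l)
    (h2 : (e i - e l : Fin n → ℚ) = e i' - e l') : i = i' ∧ l = l' := by
  have hi := congrFun h2 i
  have hl := congrFun h2 l
  simp only [Pi.sub_apply] at hi hl
  rw [e_self, e_ne h] at hi
  rw [e_self, e_ne h.symm] at hl
  constructor
  · by_contra hne
    rw [e_ne hne] at hi
    have := e_nonneg l' i
    linarith
  · by_contra hne
    rw [e_ne hne] at hl
    have := e_nonneg i' l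
    linarith

/-- the projection merging coordinate `i` into coordinate `l` -/
def proj {n : ℕ} (i l : Fin (n + 1)) (x : Fin (n + 1) → ℚ) : Fin n → ℚ :=
  fun k => x (i.succAbove k) + if i.succAbove k = l then x i else 0

theorem proj_add {n : ℕ} (i l : Fin (n + 1)) (x y : Fin (n + 1) → ℚ) :
    proj i l (x + y) = proj i l x + proj i l y := by
  funext k
  simp only [proj, Pi.add_apply]
  split_ifs <;> ring

theorem proj_move {n : ℕ} {i l : Fin (n + 1)} (h : i ≠ l) (x : Fin (n + 1) → ℚ) :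
    proj i l (x - e i + e l) = proj i l x := by
  funext k
  simp only [proj, Pi.add_apply, Pi.sub_apply]
  have h1 : (e i : Fin (n+1) → ℚ) (i.succAbove k) = 0 := e_ne (Fin.succAbove_ne i k)
  rw [h1, e_self, e_ne h]
  split_ifs with hk
  · rw [hk, e_self]; ring
  · rw [e_ne hk]; ring

theorem proj_e {n : ℕ} (i l : Fin (n + 1)) (k : Fin n) :
    proj i l (e (i.succAbove k)) = e k := by
  funext m
  simp only [proj]
  have h1 : (e (i.succAbove k) : Fin (n+1) → ℚ) i = 0 := e_ne (Fin.succAbove_ne i k).symm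
  rw [h1]
  simp only [ite_self, add_zero]
  by_cases hm : m = k
  · subst hm; rw [e_self, e_self]
  · rw [e_ne hm, e_ne]
    intro hh
    exact hm (Fin.succAbove_right_injective hh)

theorem card_proj {n : ℕ} {i l : Fin (n + 1)} (h : i ≠ l) (B : Finset (Fin (n + 1) → ℚ)) :
    (B.image (proj i l)).card + (R B i l).card ≤ B.card := by
  have hsub : B.image (proj i l) ⊆ (B \ R B i l).image (proj i l) := by
    intro y hy
    obtain ⟨u, hu, rfl⟩ := mem_image.1 hy
    obtain ⟨v, hv, hmin⟩ := (B.filter (fun v => proj i l v = proj i l u)).exists_min_image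
      (fun v => v i) ⟨u, by simp [hu]⟩
    rw [mem_filter] at hv
    refine mem_image.2 ⟨v, ?_, hv.2⟩
    rw [mem_sdiff]
    refine ⟨hv.1, ?_⟩
    intro hR
    have h2 := (mem_filter.1 hR).2
    have h3 := hmin (v - e i + e l) (mem_filter.2 ⟨h2, by rw [proj_move h, hv.2]⟩)
    simp only [Pi.add_apply, Pi.sub_apply] at h3
    rw [e_self, e_ne h] at h3
    linarith
  have h1 := card_le_card hsub
  have h2 : ((B \ R B i l).image (proj i l)).card ≤ (B \ R B i l).card := card_image_le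
  have h3 : (B \ R B i l).card + (R B i l).card = B.card :=
    card_sdiff_add_card_eq_card (filter_subset _ _)
  omega

/-- the induction step gives: each root direction occurs at most once -/
theorem root_once {n : ℕ}
    (IH : ∀ B₀ B₁ : Finset (Fin n → ℚ), T n ⊆ B₀ + B₁ → 2 * n ≤ B₀.card + B₁.card)
    (B₀ B₁ : Finset (Fin (n + 1) → ℚ)) (hT : T (n + 1) ⊆ B₀ + B₁)
    (hcard : B₀.card + B₁.card ≤ 2 * n + 1) {i l : Fin (n + 1)} (h : i ≠ l) :
    (R B₀ i l).card + (R B₁ i l).card ≤ 1 := by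
  have h1 := IH (B₀.image (proj i l)) (B₁.image (proj i l)) (by
    intro t ht
    obtain ⟨a, b, rfl⟩ := mem_T.1 ht
    have hm : (e (i.succAbove a) + e (i.succAbove b) : Fin (n+1) → ℚ) ∈ B₀ + B₁ :=
      hT (mem_T.2 ⟨_, _, rfl⟩)
    obtain ⟨u, hu, w, hw, huw⟩ := mem_add.1 hm
    refine mem_add.2 ⟨proj i l u, mem_image_of_mem _ hu, proj i l w, mem_image_of_mem _ hw, ?_⟩
    rw [← proj_add, huw, proj_add, proj_e, proj_e])
  have h2 := card_proj h B₀
  have h3 := card_proj h B₁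
  omega


theorem card_image_block {n : ℕ} (F : Finset (Fin n)) (c : Fin n → ℚ) :
    (F.image (fun i => c + e i)).card = F.card :=
  card_image_of_injective _ (fun _ _ h => e_inj (add_left_cancel h))

/-- number of adjacent pairs -/
def E {n : ℕ} (B₀ B₁ : Finset (Fin n → ℚ)) : ℕ :=
  ((B₀ ×ˢ B₁).filter (fun p => p.1 + p.2 ∈ T n)).card

theorem card_T_le {n : ℕ} {B₀ B₁ : Finset (Fin n → ℚ)} (hT : T n ⊆ B₀ + B₁) :
    (n + 1).choose 2 ≤ E B₀ B₁ := by
  rw [← card_T, E]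
  have : T n ⊆ (((B₀ ×ˢ B₁).filter (fun p => p.1 + p.2 ∈ T n)).image (fun p => p.1 + p.2)) := by
    intro t ht
    obtain ⟨u, hu, w, hw, huw⟩ := mem_add.1 (hT ht)
    refine mem_image.2 ⟨(u, w), ?_, huw⟩
    rw [mem_filter, mem_product]
    refine ⟨⟨hu, hw⟩, ?_⟩
    simp only
    rw [huw]; exact ht
  exact (card_le_card this).trans card_image_le

theorem inter_small {n : ℕ} {B₀ B₁ : Finset (Fin n → ℚ)}
    (hR : ∀ i l, i ≠ l → (R B₀ i l).card + (R B₁ i l).card ≤ 1) (c : Fin n → ℚ) :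
    (Fs B₀ c ∩ Fs B₁ (-c)).card ≤ 1 := by
  rw [card_le_one]
  intro i hi l hl
  by_contra hne
  rw [mem_inter, mem_Fs, mem_Fs] at hi hl
  have h1 : 0 < (R B₀ i l).card := card_pos.2 ⟨c + e i, mem_filter.2 ⟨hi.1, by
    have : c + e i - e i + e l = c + e l := by abel
    rw [this]; exact hl.1⟩⟩
  have h2 : 0 < (R B₁ i l).card := card_pos.2 ⟨-c + e i, mem_filter.2 ⟨hi.2, by
    have : -c + e i - e i + e l = -c + e l := by abel
    rw [this]; exact hl.2⟩⟩
  have := hR i l hne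
  omega

/-- a vertex outside the block has at most one neighbour in the block -/
theorem block_nbr {n : ℕ} {c w : Fin n → ℚ} {i k : Fin n}
    (hw : ∀ j, w ≠ -c + e j) (h1 : (c + e i) + w ∈ T n) (h2 : (c + e k) + w ∈ T n) : i = k := by
  by_contra hne
  have hz : (c + e i + w) i = 0 := by
    by_contra hnz
    obtain ⟨j, hj⟩ := T_pos h1 i hnz
    apply hw j
    have : c + w = e j := by
      have h3 : e i + (c + w) = e i + e j := by rw [← hj]; abel
      exact add_left_cancel h3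
    rw [← this]; abel
  have h3 := T_nonneg h2 i
  simp only [Pi.add_apply] at hz h3
  rw [e_self] at hz
  rw [e_ne hne] at h3
  linarith

theorem block_arith {n f g p q m : ℕ} (e1 : f + g ≤ n + 1) (e2 : n ≤ f + g)
    (e3 : p + q + 1 + (f + g) ≤ 2 * n) (hTE : m ≤ f * g + q + p + p * q)
    (hm : (n + 1) * n = 2 * m) : False := by
  have hTE' : (m : ℤ) ≤ f * g + q + p + p * q := by exact_mod_cast hTE
  have hm' : ((n : ℤ) + 1) * n = 2 * m := by exact_mod_cast hm
  have e1' : (f : ℤ) + g ≤ n + 1 := by exact_mod_cast e1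
  have e2' : (n : ℤ) ≤ f + g := by exact_mod_cast e2
  have e3' : (p : ℤ) + q + 1 + (f + g) ≤ 2 * n := by exact_mod_cast e3
  have hp : (0 : ℤ) ≤ p := by positivity
  have hq : (0 : ℤ) ≤ q := by positivity
  have k1 : 4 * ((f : ℤ) * g) ≤ (f + g) ^ 2 := by nlinarith [sq_nonneg ((f : ℤ) - g)]
  have k2 : 4 * (((p : ℤ) + 1) * (q + 1)) ≤ (p + q + 2) ^ 2 := by
    nlinarith [sq_nonneg ((p : ℤ) - q)]
  have k3 : ((p : ℤ) + q + 2) ^ 2 ≤ (2 * n + 1 - (f + g)) ^ 2 := by
    apply pow_le_pow_left₀ (by linarith)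
    linarith
  have k4 : 2 * ((n + 1 : ℤ) * n) ≤ (f + g) ^ 2 + (2 * n + 1 - (f + g)) ^ 2 - 4 := by
    linarith
  have k5 : (f + g : ℤ) = n ∨ (f + g : ℤ) = n + 1 := by omega
  rcases k5 with h | h
  · rw [h] at k4; linarith
  · rw [h] at k4; linarith

theorem block_small {n : ℕ} {B₀ B₁ : Finset (Fin n → ℚ)} (hT : T n ⊆ B₀ + B₁)
    (hN : B₀.card + B₁.card + 1 ≤ 2 * n)
    (hR : ∀ i l, i ≠ l → (R B₀ i l).card + (R B₁ i l).card ≤ 1) (c : Fin n → ℚ) :
    (Fs B₀ c).card + (Fs B₁ (-c)).card + 1 ≤ n := by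
  set F := Fs B₀ c with hF
  set G := Fs B₁ (-c) with hG
  have hun : (F ∪ G).card + (F ∩ G).card = F.card + G.card := card_union_add_card_inter F G
  have hin : (F ∩ G).card ≤ 1 := inter_small hR c
  have hle : (F ∪ G).card ≤ n := by
    simpa using card_le_univ (F ∪ G)
  set A0 := F.image (fun i => c + e i) with hA0
  set A1 := G.image (fun i => -c + e i) with hA1
  have cA0 : A0.card = F.card := card_image_block F c
  have cA1 : A1.card = G.card := card_image_block G (-c)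
  have sA0 : A0 ⊆ B₀ := by
    intro x hx
    obtain ⟨i, hi, rfl⟩ := mem_image.1 hx
    exact mem_Fs.1 hi
  have sA1 : A1 ⊆ B₁ := by
    intro x hx
    obtain ⟨i, hi, rfl⟩ := mem_image.1 hx
    exact mem_Fs.1 hi
  have d0 : (B₀ \ A0).card + A0.card = B₀.card := card_sdiff_add_card_eq_card sA0
  have d1 : (B₁ \ A1).card + A1.card = B₁.card := card_sdiff_add_card_eq_card sA1
  have hcov : (B₀ ×ˢ B₁).filter (fun p => p.1 + p.2 ∈ T n) ⊆
      (A0 ×ˢ A1) ∪ ((A0 ×ˢ (B₁ \ A1)).filter (fun p => p.1 + p.2 ∈ T n)) ∪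
      (((B₀ \ A0) ×ˢ A1).filter (fun p => p.1 + p.2 ∈ T n)) ∪ ((B₀ \ A0) ×ˢ (B₁ \ A1)) := by
    rintro ⟨u, w⟩ huw
    simp only [mem_filter, mem_product] at huw
    simp only [mem_union, mem_filter, mem_product, mem_sdiff]
    by_cases hu : u ∈ A0 <;> by_cases hw : w ∈ A1 <;> simp [hu, hw, huw.1.1, huw.1.2, huw.2]
  have c2 : ((A0 ×ˢ (B₁ \ A1)).filter (fun p => p.1 + p.2 ∈ T n)).card ≤ (B₁ \ A1).card := by
    apply card_le_card_of_injOn Prod.snd
    · rintro ⟨u, w⟩ huw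
      have := mem_filter.1 huw
      exact (mem_product.1 this.1).2
    · rintro ⟨u, w⟩ huw ⟨u', w'⟩ huw' (heq : w = w')
      subst heq
      have h1 := mem_filter.1 (mem_coe.1 huw)
      have h2 := mem_filter.1 (mem_coe.1 huw')
      have hu := (mem_product.1 h1.1).1
      have hu' := (mem_product.1 h2.1).1
      have hw := (mem_product.1 h1.1).2
      obtain ⟨i, hi, hiu⟩ := mem_image.1 hu
      obtain ⟨k, hk, hku⟩ := mem_image.1 hu'
      simp only at hiu hku hw
      subst hiu hku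
      have : i = k := by
        refine block_nbr (c := c) (w := w) ?_ h1.2 h2.2
        rintro j rfl
        apply (mem_sdiff.1 hw).2
        exact mem_image.2 ⟨j, mem_Fs.2 (mem_sdiff.1 hw).1, rfl⟩
      rw [this]
  have c3 : (((B₀ \ A0) ×ˢ A1).filter (fun p => p.1 + p.2 ∈ T n)).card ≤ (B₀ \ A0).card := by
    apply card_le_card_of_injOn Prod.fst
    · rintro ⟨u, w⟩ huw
      have := mem_filter.1 huw
      exact (mem_product.1 this.1).1
    · rintro ⟨w, u⟩ huw ⟨w', u'⟩ huw' (heq : w = w')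
      subst heq
      have h1 := mem_filter.1 (mem_coe.1 huw)
      have h2 := mem_filter.1 (mem_coe.1 huw')
      have hu := (mem_product.1 h1.1).2
      have hu' := (mem_product.1 h2.1).2
      have hw := (mem_product.1 h1.1).1
      obtain ⟨i, hi, hiu⟩ := mem_image.1 hu
      obtain ⟨k, hk, hku⟩ := mem_image.1 hu'
      simp only at hiu hku hw
      subst hiu hku
      have : i = k := by
        refine block_nbr (c := -c) (w := w) ?_ (by rw [add_comm]; exact h1.2)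
          (by rw [add_comm]; exact h2.2)
        rintro j hj
        rw [neg_neg] at hj
        subst hj
        apply (mem_sdiff.1 hw).2
        exact mem_image.2 ⟨j, mem_Fs.2 (mem_sdiff.1 hw).1, rfl⟩
      rw [this]
  have hE : E B₀ B₁ ≤ A0.card * A1.card + (B₁ \ A1).card + (B₀ \ A0).card
      + (B₀ \ A0).card * (B₁ \ A1).card := by
    refine (card_le_card hcov).trans ?_
    refine (card_union_le _ _).trans ?_
    refine Nat.add_le_add ?_ (card_product _ _).le
    refine (card_union_le _ _).trans ?_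
    refine Nat.add_le_add ?_ c3
    refine (card_union_le _ _).trans ?_
    exact Nat.add_le_add (card_product _ _).le c2
  have hTE := (card_T_le hT).trans hE
  rw [Nat.choose_two_right] at hTE
  have hev : 2 ∣ (n + 1) * (n + 1 - 1) := by
    have := Nat.even_mul_pred_self (n + 1)
    exact this.two_dvd
  obtain ⟨m, hm⟩ := hev
  rw [hm, Nat.mul_div_cancel_left _ (by norm_num : 0 < 2)] at hTE
  simp only [Nat.add_sub_cancel] at hm
  by_contra hcon
  rw [cA0] at hTE d0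
  rw [cA1] at hTE d1
  exact block_arith (by omega) (by omega) (by omega) hTE hm


theorem offDiag_sum_le {n : ℕ} (B : Finset (Fin n → ℚ)) (C : Finset (Fin n → ℚ))
    (s : (Fin n → ℚ) → (Fin n → ℚ)) (hs : Function.Injective s) :
    ∑ c ∈ C, (Fs B (s c)).offDiag.card ≤
      ∑ p ∈ (univ : Finset (Fin n)).offDiag, (R B p.1 p.2).card := by
  rw [← card_sigma, ← card_sigma]
  apply card_le_card_of_injOn
    (fun x : (Σ _ : (Fin n → ℚ), Fin n × Fin n) =>
      (⟨x.2, s x.1 + e x.2.1⟩ : (Σ _ : Fin n × Fin n, (Fin n → ℚ))))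
  · rintro ⟨c, i, l⟩ hx
    simp only [coe_sigma, Set.mem_sigma_iff, mem_coe, mem_offDiag, mem_univ, true_and] at hx ⊢
    obtain ⟨hc, hi, hl, hne⟩ := hx
    rw [mem_Fs] at hi hl
    refine ⟨hne, mem_filter.2 ⟨hi, ?_⟩⟩
    have : s c + e i - e i + e l = s c + e l := by abel
    rw [this]; exact hl
  · rintro ⟨c, i, l⟩ _ ⟨c', i', l'⟩ _ heq
    simp only [Sigma.mk.injEq, Prod.mk.injEq, heq_eq_eq] at heq ⊢
    obtain ⟨⟨rfl, rfl⟩, h3⟩ := heq
    exact ⟨hs (add_right_cancel h3), rfl, rfl⟩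

theorem pairs_le {n : ℕ} {B₀ B₁ : Finset (Fin n → ℚ)}
    (hR : ∀ i l, i ≠ l → (R B₀ i l).card + (R B₁ i l).card ≤ 1)
    (C : Finset (Fin n → ℚ)) :
    ∑ c ∈ C, ((Fs B₀ c).offDiag.card + (Fs B₁ (-c)).offDiag.card) ≤ n * n - n := by
  rw [sum_add_distrib]
  have h0 := offDiag_sum_le B₀ C id Function.injective_id
  have h1 := offDiag_sum_le B₁ C (fun c => -c) neg_injective
  simp only [id] at h0
  calc _ ≤ ∑ p ∈ (univ : Finset (Fin n)).offDiag, (R B₀ p.1 p.2).card +
        ∑ p ∈ (univ : Finset (Fin n)).offDiag, (R B₁ p.1 p.2).card := Nat.add_le_add h0 h1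
    _ = ∑ p ∈ (univ : Finset (Fin n)).offDiag, ((R B₀ p.1 p.2).card + (R B₁ p.1 p.2).card) := by
        rw [sum_add_distrib]
    _ ≤ ∑ p ∈ (univ : Finset (Fin n)).offDiag, 1 := by
        apply sum_le_sum
        intro p hp
        exact hR _ _ (mem_offDiag.1 hp).2.2
    _ = n * n - n := by
        rw [sum_const, smul_eq_mul, mul_one, offDiag_card, card_univ, Fintype.card_fin]

/-- codegree of a pair -/
def cod {n : ℕ} (B₁ : Finset (Fin n → ℚ)) (p : (Fin n → ℚ) × (Fin n → ℚ)) : ℕ :=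
  (B₁.filter (fun w => p.1 + w ∈ T n ∧ p.2 + w ∈ T n)).card

theorem E_eq_sum {n : ℕ} (B₀ B₁ : Finset (Fin n → ℚ)) :
    E B₀ B₁ = ∑ w ∈ B₁, (B₀.filter (fun u => u + w ∈ T n)).card := by
  rw [E, card_filter, sum_product_right]
  refine sum_congr rfl fun w _ => ?_
  rw [card_filter]

theorem E_eq_sum' {n : ℕ} (B₀ B₁ : Finset (Fin n → ℚ)) :
    E B₀ B₁ = ∑ u ∈ B₀, (B₁.filter (fun w => u + w ∈ T n)).card := by
  rw [E, card_filter, sum_product]
  refine sum_congr rfl fun w _ => ?_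
  rw [card_filter]

theorem E_symm {n : ℕ} (B₀ B₁ : Finset (Fin n → ℚ)) : E B₀ B₁ = E B₁ B₀ := by
  rw [E_eq_sum, E_eq_sum']
  refine sum_congr rfl fun w _ => ?_
  congr 1
  apply filter_congr
  intro u _
  rw [add_comm]

theorem sum_sq_eq {n : ℕ} (B₀ B₁ : Finset (Fin n → ℚ)) :
    ∑ w ∈ B₁, (B₀.filter (fun u => u + w ∈ T n)).card ^ 2 = ∑ p ∈ B₀ ×ˢ B₀, cod B₁ p := by
  have h := sum_card_bipartiteAbove_eq_sum_card_bipartiteBelow
    (s := B₁) (t := B₀ ×ˢ B₀)
    (fun (w : Fin n → ℚ) (p : (Fin n → ℚ) × (Fin n → ℚ)) => p.1 + w ∈ T n ∧ p.2 + w ∈ T n)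
  calc _ = ∑ w ∈ B₁, ((B₀ ×ˢ B₀).bipartiteAbove
        (fun (w : Fin n → ℚ) (p : (Fin n → ℚ) × (Fin n → ℚ)) =>
          p.1 + w ∈ T n ∧ p.2 + w ∈ T n) w).card := by
        refine sum_congr rfl fun w _ => ?_
        rw [bipartiteAbove, filter_product (fun u => u + w ∈ T n) (fun u => u + w ∈ T n),
          card_product, sq]
    _ = _ := h

theorem cod_block {n : ℕ} (B₁ : Finset (Fin n → ℚ)) (c : Fin n → ℚ) {i l : Fin n} (h : i ≠ l) :
    cod B₁ (c + e i, c + e l) ≤ (Fs B₁ (-c)).card := by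
  rw [← card_image_block (Fs B₁ (-c)) (-c)]
  apply card_le_card
  intro w hw
  obtain ⟨hwB, h1, h2⟩ := mem_filter.1 hw
  simp only at h1 h2
  have hpos : (c + e i + w) i ≠ 0 := by
    have h3 := T_nonneg h2 i
    simp only [Pi.add_apply] at h3 ⊢
    rw [e_ne h] at h3
    rw [e_self]
    intro h4
    linarith
  obtain ⟨j, hj⟩ := T_pos h1 i hpos
  have h5 : w = -c + e j := by
    have h3 : (c + e i) + w = (c + e i) + (-c + e j) := by rw [hj]; abel
    exact add_left_cancel h3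
  refine mem_image.2 ⟨j, ?_, h5.symm⟩
  rw [mem_Fs, ← h5]; exact hwB

theorem cherries {n : ℕ} (B₀ B₁ C : Finset (Fin n → ℚ))
    (hC : ∀ u ∈ B₀, ∀ i, u - e i ∈ C) :
    (∑ w ∈ B₁, ((B₀.filter (fun u => u + w ∈ T n)).card : ℤ) ^ 2) ≤
      E B₀ B₁ + B₀.offDiag.card +
        ∑ c ∈ C, ((Fs B₀ c).offDiag.card : ℤ) * ((Fs B₁ (-c)).card - 1) := by
  have h1 : (∑ w ∈ B₁, ((B₀.filter (fun u => u + w ∈ T n)).card : ℤ) ^ 2)
      = ∑ p ∈ B₀ ×ˢ B₀, (cod B₁ p : ℤ) := by
    exact_mod_cast sum_sq_eq B₀ B₁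
  have h2 : ∑ p ∈ B₀ ×ˢ B₀, (cod B₁ p : ℤ)
      = ∑ p ∈ B₀.diag, (cod B₁ p : ℤ) + ∑ p ∈ B₀.offDiag, (cod B₁ p : ℤ) := by
    rw [← diag_union_offDiag, sum_union (disjoint_diag_offDiag _)]
  have h3 : ∑ p ∈ B₀.diag, (cod B₁ p : ℤ) = E B₀ B₁ := by
    rw [sum_diag, E_eq_sum']
    push_cast
    refine sum_congr rfl fun u _ => ?_
    simp [cod]
  let S : Finset (Σ _ : (Fin n → ℚ), Fin n × Fin n) := C.sigma (fun c => (Fs B₀ c).offDiag)
  let φ : (Σ _ : (Fin n → ℚ), Fin n × Fin n) → (Fin n → ℚ) × (Fin n → ℚ) :=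
    fun x => (x.1 + e x.2.1, x.1 + e x.2.2)
  have hinj : Set.InjOn φ S := by
    rintro ⟨c, i, l⟩ hx ⟨c', i', l'⟩ _ heq
    simp only [S, coe_sigma, Set.mem_sigma_iff, mem_coe, mem_offDiag] at hx
    obtain ⟨_, _, _, hne⟩ := hx
    simp only [φ, Prod.mk.injEq] at heq
    obtain ⟨ha, hb⟩ := heq
    have hroot : (e i - e l : Fin n → ℚ) = e i' - e l' := by
      have : (c + e i) - (c + e l) = (c' + e i') - (c' + e l') := by rw [ha, hb]
      rwa [add_sub_add_left_eq_sub, add_sub_add_left_eq_sub] at this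
    obtain ⟨rfl, rfl⟩ := root_unique hne hroot
    have := add_right_cancel ha
    subst this
    rfl
  have hsub : S.image φ ⊆ B₀.offDiag := by
    intro p hp
    obtain ⟨⟨c, i, l⟩, hx, rfl⟩ := mem_image.1 hp
    simp only [S, mem_sigma, mem_offDiag, mem_Fs] at hx
    obtain ⟨_, hi, hl, hne⟩ := hx
    simp only [φ, mem_offDiag]
    exact ⟨hi, hl, fun hh => hne (e_inj (add_left_cancel hh))⟩
  have h4 : ∑ p ∈ B₀.offDiag, ((cod B₁ p : ℤ) - 1) ≤ ∑ p ∈ S.image φ, ((cod B₁ p : ℤ) - 1) := by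
    rw [← sum_sdiff hsub]
    have : ∑ p ∈ B₀.offDiag \ S.image φ, ((cod B₁ p : ℤ) - 1) ≤ 0 := by
      apply sum_nonpos
      rintro ⟨u, v⟩ hp
      rw [mem_sdiff, mem_offDiag] at hp
      obtain ⟨⟨hu, hv, huv⟩, hnot⟩ := hp
      simp only at hu hv huv
      have : cod B₁ (u, v) ≤ 1 := by
        by_contra hgt
        push Not at hgt
        rw [cod, one_lt_card] at hgt
        obtain ⟨w, hw, w', hw', hww⟩ := hgt
        rw [mem_filter] at hw hw'
        obtain ⟨i, l, hil, hr⟩ := root_of_two huv hww hw.2.1 hw.2.2 hw'.2.1 hw'.2.2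
        apply hnot
        have hv' : u - e i + e l = v := by
          have : u - e i + e l = u - (e i - e l) := by abel
          rw [this, ← hr]; abel
        refine mem_image.2 ⟨⟨u - e i, (i, l)⟩, ?_, ?_⟩
        · simp only [S, mem_sigma, mem_offDiag, mem_Fs]
          refine ⟨hC u hu i, ?_, ?_, hil⟩
          · rw [sub_add_cancel]; exact hu
          · rw [hv']; exact hv
        · simp only [φ, Prod.mk.injEq]
          exact ⟨sub_add_cancel _ _, hv'⟩
      have : (cod B₁ (u, v) : ℤ) ≤ 1 := by exact_mod_cast this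
      linarith
    linarith
  have h5 : ∑ p ∈ S.image φ, ((cod B₁ p : ℤ) - 1) ≤
      ∑ c ∈ C, ((Fs B₀ c).offDiag.card : ℤ) * ((Fs B₁ (-c)).card - 1) := by
    rw [sum_image hinj, sum_sigma]
    apply sum_le_sum
    intro c _
    calc _ ≤ ∑ x ∈ (Fs B₀ c).offDiag, (((Fs B₁ (-c)).card : ℤ) - 1) := by
          apply sum_le_sum
          rintro ⟨i, l⟩ hil
          have := cod_block B₁ c (mem_offDiag.1 hil).2.2
          have : (cod B₁ (c + e i, c + e l) : ℤ) ≤ (Fs B₁ (-c)).card := by exact_mod_cast this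
          simp only [φ]
          linarith
      _ = _ := by rw [sum_const, nsmul_eq_mul]
  have h6 : ∑ p ∈ B₀.offDiag, ((cod B₁ p : ℤ) - 1)
      = ∑ p ∈ B₀.offDiag, (cod B₁ p : ℤ) - B₀.offDiag.card := by
    rw [sum_sub_distrib, sum_const, nsmul_eq_mul, mul_one]
  linarith

theorem final_arith2 {n N E : ℤ} (hn : 3 ≤ n) (hNpos : 0 < N)
    (hNM' : N ≤ 2 * n - 1) (hE : n * (n + 1) ≤ 2 * E)
    (a5 : 8 * E ^ 2 ≤ N * (4 * E + N ^ 2 - 2 * N + (n - 3) * (n * n - n))) : False := by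
  obtain ⟨M, hM⟩ : ∃ M, M = 2 * n - 1 := ⟨_, rfl⟩
  have hNM : N ≤ M := by linarith
  have hM2 : 2 ≤ M := by linarith
  have hnn : 0 ≤ n * n - n := by nlinarith
  have hK : 0 ≤ (n - 3) * (n * n - n) := mul_nonneg (by linarith) hnn
  have hEpos : 0 < E := by nlinarith
  have g1 : N ^ 2 - 2 * N ≤ M ^ 2 - 2 * M := by nlinarith
  have g2 : 0 ≤ M ^ 2 - 2 * M := by nlinarith
  have a6 : N * (4 * E + N ^ 2 - 2 * N + (n - 3) * (n * n - n))
      ≤ M * (4 * E + M ^ 2 - 2 * M + (n - 3) * (n * n - n)) := by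
    have f1 : 4 * E + N ^ 2 - 2 * N + (n - 3) * (n * n - n)
        ≤ 4 * E + M ^ 2 - 2 * M + (n - 3) * (n * n - n) := by
      linarith
    have f2 : 0 ≤ 4 * E + M ^ 2 - 2 * M + (n - 3) * (n * n - n) := by
      linarith
    calc _ ≤ N * (4 * E + M ^ 2 - 2 * M + (n - 3) * (n * n - n)) :=
          mul_le_mul_of_nonneg_left f1 hNpos.le
      _ ≤ _ := mul_le_mul_of_nonneg_right hNM f2
  obtain ⟨a, ha⟩ : ∃ a, a = 2 * E := ⟨_, rfl⟩
  obtain ⟨b, hb⟩ : ∃ b, b = n * (n + 1) := ⟨_, rfl⟩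
  have hab : b ≤ a := by rw [ha, hb]; exact hE
  have a7 : 2 * a ^ 2 - 2 * M * a ≤ M * (M ^ 2 - 2 * M + (n - 3) * (n * n - n)) := by
    rw [ha]
    have : M * (4 * E + M ^ 2 - 2 * M + (n - 3) * (n * n - n))
      = 4 * E * M + M * (M ^ 2 - 2 * M + (n - 3) * (n * n - n)) := by ring
    rw [this] at a6
    have : 2 * (2 * E) ^ 2 - 2 * M * (2 * E) = 8 * E ^ 2 - 4 * E * M := by ring
    rw [this]
    linarith
  have hMb : M ≤ 2 * b := by rw [hM, hb]; nlinarith
  have a8 : 2 * b ^ 2 - 2 * M * b ≤ 2 * a ^ 2 - 2 * M * a := by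
    have h1 : 2 * a ^ 2 - 2 * M * a - (2 * b ^ 2 - 2 * M * b) = 2 * (a - b) * (a + b - M) := by
      ring
    have h2 : 0 ≤ 2 * (a - b) * (a + b - M) := by
      apply mul_nonneg
      · linarith
      · linarith
    linarith
  have a9 := a8.trans a7
  rw [hb, hM] at a9
  have h1 : 2 * (n * (n + 1)) ^ 2 - 2 * (2 * n - 1) * (n * (n + 1))
      - (2 * n - 1) * ((2 * n - 1) ^ 2 - 2 * (2 * n - 1) + (n - 3) * (n * n - n))
      = n ^ 3 + 10 * n ^ 2 - 9 * n + 3 := by ring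
  have h2 : 0 < n ^ 3 + 10 * n ^ 2 - 9 * n + 3 := by
    have : 0 < n ^ 3 := by positivity
    nlinarith
  linarith

theorem final_arith {n x y S0 S1 E : ℤ} (hn : 3 ≤ n) (hx : 0 < x) (hy : 0 < y)
    (hN : x + y + 1 ≤ 2 * n) (hE : n * (n + 1) ≤ 2 * E)
    (h1 : E ^ 2 ≤ y * S1) (h0 : E ^ 2 ≤ x * S0)
    (h : 2 * (S0 + S1) ≤ 4 * E + 2 * (x * x - x) + 2 * (y * y - y) + (n - 3) * (n * n - n)) :
    False := by
  set N := x + y with hNdef
  have hNpos : 0 < N := by positivity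
  -- `N * E^2 ≤ x * y * (S0 + S1)`
  have a1 : N * E ^ 2 ≤ x * y * (S0 + S1) := by
    have := mul_le_mul_of_nonneg_left h1 hx.le
    have := mul_le_mul_of_nonneg_left h0 hy.le
    rw [hNdef]
    nlinarith
  -- `4 E^2 (N^2 + (x-y)^2) ≤ N^3 (S0+S1)`
  have hSpos : 0 ≤ S0 + S1 := by
    by_contra hneg
    push Not at hneg
    have : x * y * (S0 + S1) < 0 := mul_neg_of_pos_of_neg (by positivity) hneg
    have : 0 ≤ N * E ^ 2 := by positivity
    linarith
  have a2 : 4 * E ^ 2 * (N ^ 2 + (x - y) ^ 2) ≤ N ^ 3 * (S0 + S1) := by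
    have b1 : N * (4 * E ^ 2 * (N ^ 2 + (x - y) ^ 2)) ≤ N * (N ^ 3 * (S0 + S1)) := by
      have b2 : N * (4 * E ^ 2 * (N ^ 2 + (x - y) ^ 2))
          = 4 * (N ^ 2 + (x - y) ^ 2) * (N * E ^ 2) := by ring
      rw [b2]
      have b3 : 4 * (N ^ 2 + (x - y) ^ 2) * (N * E ^ 2)
          ≤ 4 * (N ^ 2 + (x - y) ^ 2) * (x * y * (S0 + S1)) :=
        mul_le_mul_of_nonneg_left a1 (by positivity)
      have b4 : 4 * (N ^ 2 + (x - y) ^ 2) * (x * y * (S0 + S1))
          = (N ^ 4 - (x - y) ^ 4) * (S0 + S1) := by rw [hNdef]; ring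
      have b5 : (N ^ 4 - (x - y) ^ 4) * (S0 + S1) ≤ N ^ 4 * (S0 + S1) := by
        apply mul_le_mul_of_nonneg_right _ hSpos
        have : 0 ≤ (x - y) ^ 4 := by positivity
        linarith
      calc _ ≤ _ := b3
        _ = _ := b4
        _ ≤ _ := b5
        _ = _ := by ring
    exact le_of_mul_le_mul_left b1 hNpos
  have hEpos : 0 < E := by nlinarith
  -- `N^3 ≤ 8 E^2`
  have a3 : N ^ 3 ≤ 8 * E ^ 2 := by
    have c1 : N ≤ 2 * n := by linarith
    have c2 : N ^ 3 ≤ (2 * n) ^ 3 := pow_le_pow_left₀ hNpos.le c1 3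
    have c3 : (n * (n + 1)) ^ 2 ≤ (2 * E) ^ 2 := pow_le_pow_left₀ (by positivity) hE 2
    have c4 : (2 * n) ^ 3 ≤ 2 * (n * (n + 1)) ^ 2 := by
      have : 2 * (n * (n + 1)) ^ 2 - (2 * n) ^ 3 = 2 * n ^ 2 * (n - 1) ^ 2 := by ring
      have : 0 ≤ 2 * n ^ 2 * (n - 1) ^ 2 := by positivity
      linarith
    linarith
  -- combine
  have a4 : 8 * E ^ 2 * N ^ 2 ≤ N ^ 3 * (4 * E + N ^ 2 - 2 * N + (n - 3) * (n * n - n)) := by
    have d1 : 2 * (4 * E ^ 2 * (N ^ 2 + (x - y) ^ 2)) ≤ N ^ 3 * (2 * (S0 + S1)) := by linarith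
    have d2 : N ^ 3 * (2 * (S0 + S1)) ≤ N ^ 3 * (4 * E + 2 * (x * x - x) + 2 * (y * y - y)
        + (n - 3) * (n * n - n)) := mul_le_mul_of_nonneg_left h (by positivity)
    have d3 : 2 * (x * x - x) + 2 * (y * y - y) = N ^ 2 + (x - y) ^ 2 - 2 * N := by
      rw [hNdef]; ring
    have d4 : N ^ 3 * (x - y) ^ 2 ≤ 8 * E ^ 2 * (x - y) ^ 2 :=
      mul_le_mul_of_nonneg_right a3 (by positivity)
    have d5 : N ^ 3 * (4 * E + 2 * (x * x - x) + 2 * (y * y - y) + (n - 3) * (n * n - n))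
        = N ^ 3 * (4 * E + N ^ 2 - 2 * N + (n - 3) * (n * n - n)) + N ^ 3 * (x - y) ^ 2 := by
      have : 4 * E + 2 * (x * x - x) + 2 * (y * y - y) + (n - 3) * (n * n - n)
        = (4 * E + N ^ 2 - 2 * N + (n - 3) * (n * n - n)) + (x - y) ^ 2 := by linarith
      rw [this]; ring
    linarith
  have a5 : 8 * E ^ 2 ≤ N * (4 * E + N ^ 2 - 2 * N + (n - 3) * (n * n - n)) := by
    have : N ^ 2 * (8 * E ^ 2) ≤ N ^ 2 * (N * (4 * E + N ^ 2 - 2 * N + (n - 3) * (n * n - n))) := by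
      calc _ = 8 * E ^ 2 * N ^ 2 := by ring
        _ ≤ _ := a4
        _ = _ := by ring
    exact le_of_mul_le_mul_left this (by positivity)
  exact final_arith2 hn hNpos (by linarith) hE a5

theorem term_ineq (f h n : ℤ) (hf : 0 ≤ f) (hh : 0 ≤ h) (hfh : f + h + 1 ≤ n)
    (hpf : 0 ≤ f * f - f) (hph : 0 ≤ h * h - h) (h01 : 1 ≤ f + h ∨ (f = 0 ∧ h = 0)) :
    2 * ((f * f - f) * (h - 1) + (h * h - h) * (f - 1)) ≤
      (n - 3) * ((f * f - f) + (h * h - h)) := by
  have k1 : (f + h - 2) * ((f * f - f) + (h * h - h))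
      - 2 * ((f * f - f) * (h - 1) + (h * h - h) * (f - 1)) = (f - h) ^ 2 * (f + h - 1) := by
    ring
  have k2 : 0 ≤ (f - h) ^ 2 * (f + h - 1) := by
    rcases h01 with h1 | ⟨rfl, rfl⟩
    · apply mul_nonneg (by positivity)
      linarith
    · simp
  have k3 : (f + h - 2) * ((f * f - f) + (h * h - h)) ≤
      (n - 3) * ((f * f - f) + (h * h - h)) := by
    apply mul_le_mul_of_nonneg_right (by linarith)
    linarith
  linarith

theorem main_step {n : ℕ} (hn : 3 ≤ n) {B₀ B₁ : Finset (Fin n → ℚ)} (hT : T n ⊆ B₀ + B₁)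
    (hN : B₀.card + B₁.card + 1 ≤ 2 * n)
    (hR : ∀ i l, i ≠ l → (R B₀ i l).card + (R B₁ i l).card ≤ 1) : False := by
  classical
  let C : Finset (Fin n → ℚ) := (B₀ ×ˢ univ).image (fun p => p.1 - e p.2) ∪
    (B₁ ×ˢ univ).image (fun p => e p.2 - p.1)
  have hC0 : ∀ u ∈ B₀, ∀ i, u - e i ∈ C := fun u hu i =>
    mem_union_left _ (mem_image.2 ⟨(u, i), mem_product.2 ⟨hu, mem_univ _⟩, rfl⟩)
  have hC1 : ∀ u ∈ B₁, ∀ i, u - e i ∈ C.image (fun c => -c) := fun u hu i =>
    mem_image.2 ⟨e i - u, mem_union_right _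
      (mem_image.2 ⟨(u, i), mem_product.2 ⟨hu, mem_univ _⟩, rfl⟩), neg_sub _ _⟩
  have c1 := cherries B₀ B₁ C hC0
  have c0 := cherries B₁ B₀ (C.image (fun c => -c)) hC1
  rw [sum_image (fun _ _ _ _ h => neg_injective h)] at c0
  simp only [neg_neg] at c0
  have hsum : ∑ c ∈ C, ((Fs B₀ c).offDiag.card : ℤ) * ((Fs B₁ (-c)).card - 1) +
      ∑ c ∈ C, ((Fs B₁ (-c)).offDiag.card : ℤ) * ((Fs B₀ c).card - 1) =
      ∑ c ∈ C, (((Fs B₀ c).offDiag.card : ℤ) * ((Fs B₁ (-c)).card - 1) +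
        ((Fs B₁ (-c)).offDiag.card : ℤ) * ((Fs B₀ c).card - 1)) := by
    rw [sum_add_distrib]
  have hod : ∀ F : Finset (Fin n), (F.offDiag.card : ℤ) = (F.card : ℤ) * F.card - F.card := by
    intro F
    rw [offDiag_card, Nat.cast_sub (Nat.le_mul_self _)]
    push_cast
    rfl
  have hnn : (0 : ℤ) ≤ (n : ℤ) - 3 := by
    have : (3 : ℤ) ≤ n := by exact_mod_cast hn
    linarith
  have hbound : 2 * ∑ c ∈ C, (((Fs B₀ c).offDiag.card : ℤ) * ((Fs B₁ (-c)).card - 1) +
        ((Fs B₁ (-c)).offDiag.card : ℤ) * ((Fs B₀ c).card - 1))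
        ≤ ((n : ℤ) - 3) * ((n : ℤ) * n - n) := by
    calc _ = ∑ c ∈ C, 2 * (((Fs B₀ c).offDiag.card : ℤ) * ((Fs B₁ (-c)).card - 1) +
        ((Fs B₁ (-c)).offDiag.card : ℤ) * ((Fs B₀ c).card - 1)) := by rw [mul_sum]
      _ ≤ ∑ c ∈ C, ((n : ℤ) - 3) *
          (((Fs B₀ c).offDiag.card : ℤ) + ((Fs B₁ (-c)).offDiag.card : ℤ)) := by
          apply sum_le_sum
          intro c _
          have hb := block_small hT hN hR c
          have p1 : (0 : ℤ) ≤ (Fs B₀ c).offDiag.card := by positivity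
          have p2 : (0 : ℤ) ≤ (Fs B₁ (-c)).offDiag.card := by positivity
          rw [hod] at p1 p2
          rw [hod, hod]
          apply term_ineq _ _ _ (by positivity) (by positivity) (by exact_mod_cast hb) p1 p2
          omega
      _ = ((n : ℤ) - 3) * ∑ c ∈ C, (((Fs B₀ c).offDiag.card : ℤ) +
          ((Fs B₁ (-c)).offDiag.card : ℤ)) := by rw [mul_sum]
      _ ≤ _ := by
          apply mul_le_mul_of_nonneg_left _ hnn
          have := pairs_le hR C
          have h2 : ((n * n - n : ℕ) : ℤ) = (n : ℤ) * n - n := by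
            rw [Nat.cast_sub (Nat.le_mul_self _)]; push_cast; rfl
          rw [← h2]
          exact_mod_cast this
  have hEge := card_T_le hT
  have hE2 : (n : ℤ) * (n + 1) ≤ 2 * (E B₀ B₁ : ℤ) := by
    rw [Nat.choose_two_right] at hEge
    have hev : 2 ∣ (n + 1) * (n + 1 - 1) := (Nat.even_mul_pred_self (n + 1)).two_dvd
    obtain ⟨m, hm⟩ := hev
    rw [hm, Nat.mul_div_cancel_left _ (by norm_num : 0 < 2)] at hEge
    simp only [Nat.add_sub_cancel] at hm
    have : n * (n + 1) ≤ 2 * E B₀ B₁ := by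
      rw [mul_comm n (n + 1), hm]
      omega
    exact_mod_cast this
  have hEpos : 0 < E B₀ B₁ := by
    have : (0 : ℤ) < (n : ℤ) * (n + 1) := by
      have : (3 : ℤ) ≤ n := by exact_mod_cast hn
      positivity
    have : (0 : ℤ) < 2 * (E B₀ B₁ : ℤ) := lt_of_lt_of_le this hE2
    omega
  have hb0 : 0 < B₀.card := by
    rw [card_pos]
    obtain ⟨p, hp⟩ := card_pos.1 hEpos
    exact ⟨p.1, (mem_product.1 (mem_filter.1 hp).1).1⟩
  have hb1 : 0 < B₁.card := by
    rw [card_pos]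
    obtain ⟨p, hp⟩ := card_pos.1 hEpos
    exact ⟨p.2, (mem_product.1 (mem_filter.1 hp).1).2⟩
  have cs1 : (E B₀ B₁ : ℤ) ^ 2 ≤ B₁.card *
      ∑ w ∈ B₁, ((B₀.filter (fun u => u + w ∈ T n)).card : ℤ) ^ 2 := by
    rw [E_eq_sum]
    push_cast
    exact sq_sum_le_card_mul_sum_sq
  have cs0 : (E B₀ B₁ : ℤ) ^ 2 ≤ B₀.card *
      ∑ w ∈ B₀, ((B₁.filter (fun u => u + w ∈ T n)).card : ℤ) ^ 2 := by
    rw [E_symm, E_eq_sum]
    push_cast
    exact sq_sum_le_card_mul_sum_sq
  rw [E_symm B₁ B₀] at c0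
  have o0 : (B₀.offDiag.card : ℤ) = (B₀.card : ℤ) * B₀.card - B₀.card := by
    rw [offDiag_card, Nat.cast_sub (Nat.le_mul_self _)]; push_cast; rfl
  have o1 : (B₁.offDiag.card : ℤ) = (B₁.card : ℤ) * B₁.card - B₁.card := by
    rw [offDiag_card, Nat.cast_sub (Nat.le_mul_self _)]; push_cast; rfl
  rw [o0] at c1
  rw [o1] at c0
  refine final_arith (n := n) (x := B₀.card) (y := B₁.card)
    (by exact_mod_cast hn) (by exact_mod_cast hb0) (by exact_mod_cast hb1)
    (by exact_mod_cast hN) hE2 cs1 cs0 ?_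
  linarith

theorem main (n : ℕ) : ∀ B₀ B₁ : Finset (Fin n → ℚ), T n ⊆ B₀ + B₁ →
    2 * n ≤ B₀.card + B₁.card := by
  induction n with
  | zero => intro B₀ B₁ _; omega
  | succ n IH =>
    intro B₀ B₁ hT
    by_contra hlt
    push Not at hlt
    by_cases hn : 3 ≤ n + 1
    · exact main_step hn hT (by omega)
        (fun i l h => root_once IH B₀ B₁ hT (by omega) h)
    · have hE := card_T_le hT
      have hE' : E B₀ B₁ ≤ B₀.card * B₁.card := by
        rw [← card_product]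
        exact card_le_card (filter_subset _ _)
      have hE2 := hE.trans hE'
      have hn2 : n = 0 ∨ n = 1 := by omega
      rcases hn2 with rfl | rfl
      · have h1 : (0 + 1 + 1).choose 2 = 1 := by decide
        rw [h1] at hE2
        have h0 : 0 < B₀.card := by
          rcases Nat.eq_zero_or_pos B₀.card with h | h
          · rw [h] at hE2; omega
          · exact h
        have h0' : 0 < B₁.card := by
          rcases Nat.eq_zero_or_pos B₁.card with h | h
          · rw [h] at hE2; omega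
          · exact h
        omega
      · have h1 : (1 + 1 + 1).choose 2 = 3 := by decide
        rw [h1] at hE2
        have h3 : B₀.card ≤ 3 := by omega
        have h4 : B₁.card ≤ 3 := by omega
        generalize B₀.card = x at *
        generalize B₁.card = y at *
        interval_cases x <;> omega

/-- **Main result.** If the sumset of two finite sets of rational vectors contains all
pairwise sums `e i + e j` of standard basis vectors, the two sets have at least `2 n`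
elements in total. -/
theorem result (n : ℕ) (B₀ B₁ : Finset (Fin n → ℚ))
    (hT : ∀ i j : Fin n, i ≤ j →
      (Pi.single i 1 + Pi.single j 1 : Fin n → ℚ) ∈ B₀ + B₁) :
    2 * n ≤ B₀.card + B₁.card := by
  apply main n B₀ B₁
  intro t ht
  obtain ⟨i, j, rfl⟩ := mem_T.1 ht
  rcases le_total i j with h | h
  · exact hT i j h
  · rw [add_comm (e i) (e j)]; exact hT j i h

end Pool.Agent.Results.MP_267066_co.TwoSetSumset
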